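import Pool.Agent.LargeDist.Grid
import Pool.Agent.LargeDist.Upper

set_option autoImplicit false

namespace Pool.Agent.Results.MP_bdaba8_co.GrowthOrder

open Pool.Agent.LargeDist

/-- For all `d ≥ 2` and `k ≥ 1`, `f(d,k)` agrees up to the additive constant `5^d` with the chromatic
number extremal problem `F d k` for sets in flats of dimension `d - 2`, and up to constant factors
depending on `d` only with the largest number of points in `ℝ^(d-2)` with at most `k` distinct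
distances. -/
theorem result (d k : ℕ) (hd : 2 ≤ d) (hk : 1 ≤ k) :
    (F d k ≤ f d k ∧ f d k ≤ F d k + 5 ^ d) ∧
    (M d k ≤ F d k ∧ F d k ≤ 5 ^ (d - 2) * M d k) ∧
    (D (d - 2) ((k - 1) / 2) ≤ M d k ∧ M d k ≤ D (d - 2) k) ∧
    (D (d - 2) k ≤ (((k + 1) ^ (d - 1) : ℕ) : ℕ∞) ∧
      ∀ n : ℕ, 2 * ((d - 2) * (n - 1) ^ 2) + 1 ≤ k → ((n ^ (d - 2) : ℕ) : ℕ∞) ≤ f d k) := by
  refine ⟨⟨F_le_f d k hk, f_le_F d k hd hk⟩, ⟨M_le_F d k, F_le d k⟩,
    ⟨D_le_M d k hd hk, M_le_D d k⟩, ?_, ?_⟩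
  · have h := D_le (d - 2) k
    have e : d - 2 + 1 = d - 1 := by omega
    rwa [e] at h
  · intro n hn
    have h1 := grid_le_D (d - 2) ((k - 1) / 2) n (by omega)
    exact h1.trans ((D_le_M d k hd hk).trans (M_le_f d k hk))

end Pool.Agent.Results.MP_bdaba8_co.GrowthOrder
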