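import Pool.Agent.LargeDist.Sharp.UpperFinal
import Pool.Agent.LargeDist.Exact.Main

set_option autoImplicit false

namespace Pool.Agent.Results.MP_bdaba8_co.SpaceExact

open Pool.Agent.LargeDist

/-- The exact value of `f(3,k)` for large `k`: there is `k₀` such that for every `k ≥ k₀` we have
`f(3,k) = m + 2`, where `m` is the largest size of a finite set `B` of integers for which there is a
positive integer `N` such that there are at most `k` distinct numbers among the `(b - b') ^ 2`,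
`b ≠ b'` in `B`, and the `b ^ 2 + N`, `b ∈ B`. -/
theorem result : ∃ k₀ : ℕ, ∀ k : ℕ, k₀ ≤ k → ∃ m : ℕ,
    IsGreatest {m : ℕ | ∃ (B : Finset ℤ) (N : ℕ), 0 < N ∧ B.card = m ∧
      (B.offDiag.image (fun p => (p.1 - p.2) ^ 2) ∪
        B.image (fun b => b ^ 2 + (N : ℤ))).card ≤ k} m ∧
    f 3 k = m + 2 := by
  obtain ⟨k₁, h₁⟩ := Exact.f_three_eq
  obtain ⟨k₂, h₂⟩ := Sharp.f_three_le_sharp one_pos
  refine ⟨max k₁ k₂, fun k hk => ?_⟩
  have h1 := h₁ k (le_trans (le_max_left _ _) hk)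
  obtain ⟨b, hb, -⟩ := h₂ k (le_trans (le_max_right _ _) hk)
  have hlt : Exact.Mz k < ⊤ := by
    rw [lt_top_iff_ne_top]
    intro h
    rw [h1, h] at hb
    exact absurd hb (by simp)
  have : Nonempty {p : Finset ℤ × ℕ // 0 < p.2 ∧ (Exact.sqs p.1 p.2).card ≤ k} :=
    ⟨⟨(∅, 1), one_pos, by simp [Exact.sqs]⟩⟩
  obtain ⟨⟨⟨B, N⟩, hN, hB⟩, hm⟩ := ENat.exists_eq_iSup_of_lt_top hlt
  refine ⟨B.card, ⟨⟨B, N, hN, rfl, hB⟩, ?_⟩, ?_⟩
  · rintro m ⟨B', N', hN', rfl, hB'⟩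
    have h3 : (B'.card : ℕ∞) ≤ Exact.Mz k :=
      le_iSup (fun p : {p : Finset ℤ × ℕ // 0 < p.2 ∧ (Exact.sqs p.1 p.2).card ≤ k} =>
        (p.1.1.card : ℕ∞)) ⟨(B', N'), hN', hB'⟩
    have h4 : (B'.card : ℕ∞) ≤ B.card := h3.trans_eq hm.symm
    exact_mod_cast h4
  · rw [h1]
    congr 1
    exact hm.symm

end Pool.Agent.Results.MP_bdaba8_co.SpaceExact
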