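import Pool.Agent.LargeDist.Sharp.LowerFinal
import Pool.Agent.LargeDist.Sharp.UpperFinal

set_option autoImplicit false

namespace Pool.Agent.Results.MP_bdaba8_co.SpaceSecondOrder

open Pool.Agent.LargeDist

/-- `f(3,k) = 2k/3 + exp((log 4 + o(1)) log k / log log k)`: for every `ε > 0` and all sufficiently
large `k` the value `f(3,k)` is a finite number `n` with
`2k/3 + exp((log 4 - ε) log k / log log k) ≤ n ≤ 2k/3 + exp((log 4 + ε) log k / log log k)`. -/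
theorem result (ε : ℝ) (hε : 0 < ε) : ∃ k₀ : ℕ, ∀ k : ℕ, k₀ ≤ k → ∃ n : ℕ, f 3 k = n ∧
    2 * (k : ℝ) / 3 +
      Real.exp ((Real.log 4 - ε) * Real.log k / Real.log (Real.log k)) ≤ n ∧
    (n : ℝ) ≤ 2 * (k : ℝ) / 3 +
      Real.exp ((Real.log 4 + ε) * Real.log k / Real.log (Real.log k)) := by
  obtain ⟨k₁, h₁⟩ := Sharp.f_three_ge hε
  obtain ⟨k₂, h₂⟩ := Sharp.f_three_le_sharp hε
  refine ⟨max k₁ k₂, fun k hk => ?_⟩
  obtain ⟨a, ha, ha'⟩ := h₁ k (le_trans (le_max_left _ _) hk)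
  obtain ⟨b, hb, hb'⟩ := h₂ k (le_trans (le_max_right _ _) hk)
  have hne : f 3 k ≠ ⊤ := by
    intro h
    rw [h] at hb
    exact absurd hb (by simp)
  obtain ⟨n, hn⟩ := ENat.ne_top_iff_exists.1 hne
  refine ⟨n, hn.symm, ?_, ?_⟩
  · rw [← hn] at ha
    have h3 : a ≤ n := by exact_mod_cast ha
    have h4 : (a : ℝ) ≤ n := by exact_mod_cast h3
    exact ha'.trans h4
  · rw [← hn] at hb
    have h3 : n ≤ b := by exact_mod_cast hb
    have h4 : (n : ℝ) ≤ b := by exact_mod_cast h3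
    exact h4.trans hb'

end Pool.Agent.Results.MP_bdaba8_co.SpaceSecondOrder
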