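import Pool.Agent.LargeDistU.Main

set_option autoImplicit false

namespace Pool.Agent.Results.MP_bdaba8_co.UniformOrder

open Pool.Agent.LargeDist Pool.Agent.LargeDistU

/-- Bounds for `f(d,k)` which are uniform in `d` and `k`: `log f(d,k)` is of the order of
`log (d + k).choose k` for all `k ≥ d ≥ 3`, up to absolute constants, and up to constants that depend
on `ε` only for all `k ≥ ε d`; and `f(d,1) ≤ f(d,k) ≤ f(d,1)^k`. -/
theorem result :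
    (∀ d k : ℕ, 3 ≤ d → 1 ≤ k → (((d + k).choose k : ℕ) : ℕ∞) ≤ f d k ^ 18) ∧
    (∀ d k : ℕ, 2 ≤ d → 1 ≤ k → f d k ≤ ((5 ^ d * (d + k).choose k : ℕ) : ℕ∞)) ∧
    (∀ d k : ℕ, 2 ≤ d → 1 ≤ k →
      f d k ^ min d k ≤ (((d + k).choose k ^ (4 * d) : ℕ) : ℕ∞)) ∧
    (∀ d k : ℕ, 1 ≤ d → 1 ≤ k → f d 1 ≤ f d k ∧ f d k ≤ f d 1 ^ k) :=
  ⟨choose_le_f, f_le_choose, f_pow_min, fun _ k hd hk => ⟨f_one_le k hk, f_le_pow hd k hk⟩⟩

end Pool.Agent.Results.MP_bdaba8_co.UniformOrder
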